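import Pool.Agent.H55.QR.Targets

/-! # RED: from real psd factorisations to encodings by states (helper55) -/

set_option autoImplicit false

namespace Pool.Agent.H55.QR

open Matrix Finset
open scoped ComplexOrder MatrixOrder
open Pool.Agent.H1.LP (Clause viol)

set_option linter.unusedSectionVars false
set_option linter.unusedSimpArgs false

variable {κ : Type} [Fintype κ] [DecidableEq κ]

/-- the real form of a complex matrix -/
def rf (X : Matrix κ κ ℂ) : Matrix (κ ⊕ κ) (κ ⊕ κ) ℝ :=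
  fromBlocks (X.map Complex.re) (-(X.map Complex.im)) (X.map Complex.im) (X.map Complex.re)

theorem rf_mul (X Y : Matrix κ κ ℂ) : rf (X * Y) = rf X * rf Y := by
  unfold rf
  rw [fromBlocks_multiply]
  have h1 : (X * Y).map Complex.re =
      X.map Complex.re * Y.map Complex.re + -(X.map Complex.im) * Y.map Complex.im := by
    ext i j
    simp only [map_apply, mul_apply, Matrix.add_apply, Matrix.neg_apply, neg_mul, Complex.re_sum,
      Complex.mul_re, Finset.sum_sub_distrib, Finset.sum_neg_distrib]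
    ring
  have h2 : (X * Y).map Complex.im =
      X.map Complex.im * Y.map Complex.re + X.map Complex.re * Y.map Complex.im := by
    ext i j
    simp only [map_apply, mul_apply, Matrix.add_apply, Complex.im_sum,
      Complex.mul_im, Finset.sum_add_distrib]
    ring
  rw [h1, h2]
  congr 1
  · rw [Matrix.mul_neg, Matrix.neg_mul, neg_add_rev]
  · rw [Matrix.mul_neg, add_comm, Matrix.neg_mul]

theorem rf_conjTranspose (X : Matrix κ κ ℂ) : rf Xᴴ = (rf X)ᴴ := by
  unfold rf
  rw [fromBlocks_conjTranspose]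
  congr 1
  ext i j
  simp

theorem rf_trace (X : Matrix κ κ ℂ) : (rf X).trace = 2 * X.trace.re := by
  unfold rf Matrix.trace
  rw [Fintype.sum_sum_type]
  simp only [diag_apply, fromBlocks_apply₁₁, fromBlocks_apply₂₂, map_apply, Complex.re_sum]
  ring

theorem rf_psd {X : Matrix κ κ ℂ} (h : X.PosSemidef) : (rf X).PosSemidef := by
  obtain ⟨Y, hY, rfl⟩ : ∃ Y : Matrix κ κ ℂ, Y.PosSemidef ∧ Y * Y = X :=
    ⟨CFC.sqrt X, (CFC.sqrt_nonneg X).posSemidef, CFC.sqrt_mul_sqrt_self X h.nonneg⟩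
  have h1 : rf (Y * Y) = (rf Y)ᴴ * rf Y := by
    rw [rf_mul, ← rf_conjTranspose, hY.isHermitian.eq]
  rw [h1]
  exact Matrix.posSemidef_conjTranspose_mul_self _

theorem pf_RED : S_RED := by
  classical
  intro k ε c C c' C' hc hC hH
  obtain ⟨K, γ, hγ, n₀, hn₀⟩ := hH
  have hd : 0 < c - c' := sub_pos.2 hc
  have hD : 0 < C - C' := sub_pos.2 hC
  obtain ⟨N1, hN1⟩ := exists_nat_ge (1 / (c - c'))
  refine ⟨K, min γ (C - C'), lt_min hγ hD, n₀ + N1, ?_⟩
  intro n hn
  obtain ⟨Y, m, phi, hY, hphi, hmain⟩ := hn₀ n (by omega)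
  refine ⟨Y, m, phi, hY, hphi, ?_⟩
  intro M q E hM hq
  obtain ⟨de, hde⟩ : ∃ de : ℝ, de = (2 : ℝ) ^ (-(min γ (C - C') * n)) := ⟨_, rfl⟩
  rw [← hde]
  have hnR : (0 : ℝ) ≤ n := Nat.cast_nonneg n
  have hde1 : (2 : ℝ) ^ (-(γ * n)) ≤ de := by
    rw [hde]
    apply Real.rpow_le_rpow_of_exponent_le (by norm_num)
    have := mul_le_mul_of_nonneg_right (min_le_left γ (C - C')) hnR
    linarith
  have hn1 : 1 ≤ (c - c') * n := by
    have h1 : (N1 : ℝ) ≤ n := by exact_mod_cast (by omega : N1 ≤ n)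
    have h2 : 1 / (c - c') ≤ (n : ℝ) := hN1.trans h1
    rw [div_le_iff₀ hd] at h2
    linarith
  -- one encoding
  have hone : ∀ j, ((univ.filter (fun a => (E j).Certifies (phi a) de)).card : ℝ) ≤
      (2 : ℝ) ^ (-(C * n)) * Y := by
    intro j
    have hex : ∀ a, ∃ H : Matrix (Fin (2 ^ q j)) (Fin (2 ^ q j)) ℂ,
        (E j).Certifies (phi a) de → (∀ x, (H * (E j).st x).trace = viol (phi a) x) ∧
        (H - (de : ℂ) • (1 : Matrix (Fin (2 ^ q j)) (Fin (2 ^ q j)) ℂ)).PosSemidef := by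
      intro a
      by_cases h : (E j).Certifies (phi a) de
      · obtain ⟨H, h1, h2⟩ := h
        exact ⟨H, fun _ => ⟨h1, h2⟩⟩
      · exact ⟨0, fun h' => absurd h' h⟩
    choose H hHs using hex
    refine hmain (Fin (2 ^ q j) ⊕ Fin (2 ^ q j))
      (fun a => (1 / 2 : ℝ) • rf (H a - (de : ℂ) • (1 : Matrix (Fin (2 ^ q j)) (Fin (2 ^ q j)) ℂ)))
      (fun x => rf ((E j).st x)) _ de ?_ hde1 ?_ ?_ ?_
    · rw [Fintype.card_sum, Fintype.card_fin]
      have h1 : (((2 ^ q j + 2 ^ q j : ℕ) : ℕ) : ℝ) = (2 : ℝ) ^ ((q j : ℝ) + 1) := by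
        rw [Real.rpow_add (by norm_num), Real.rpow_natCast, Real.rpow_one]
        push_cast
        ring
      rw [h1]
      apply Real.rpow_le_rpow_of_exponent_le (by norm_num)
      have := hq j
      linarith
    · intro a ha
      exact (rf_psd (hHs a (mem_filter.1 ha).2).2).smul (by norm_num)
    · intro x
      exact rf_psd ((E j).psd x)
    · intro a ha x
      have h1 := (hHs a (mem_filter.1 ha).2).1 x
      rw [Matrix.smul_mul, ← rf_mul, trace_smul, rf_trace, Matrix.sub_mul, trace_sub, h1,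
        Matrix.smul_mul, Matrix.one_mul, trace_smul, (E j).tr x]
      simp
  -- the union bound
  have h1 : ((univ.filter (fun a => ∃ j, (E j).Certifies (phi a) de)).card : ℝ) ≤
      ∑ j, ((univ.filter (fun a => (E j).Certifies (phi a) de)).card : ℝ) := by
    have h2 : univ.filter (fun a => ∃ j, (E j).Certifies (phi a) de) ⊆
        univ.biUnion (fun j => univ.filter (fun a => (E j).Certifies (phi a) de)) := by
      intro a ha
      rw [mem_filter] at ha
      obtain ⟨j, hj⟩ := ha.2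
      exact mem_biUnion.2 ⟨j, mem_univ _, mem_filter.2 ⟨mem_univ _, hj⟩⟩
    have h3 := (card_le_card h2).trans card_biUnion_le
    exact_mod_cast h3
  have h2 : ∑ j : Fin M, ((univ.filter (fun a => (E j).Certifies (phi a) de)).card : ℝ) ≤
      M * ((2 : ℝ) ^ (-(C * n)) * Y) := by
    refine (sum_le_sum fun j _ => hone j).trans ?_
    rw [sum_const, card_univ, Fintype.card_fin, nsmul_eq_mul]
  refine (h1.trans h2).trans ?_
  have h3 : (M : ℝ) * ((2 : ℝ) ^ (-(C * n)) * Y) ≤
      (2 : ℝ) ^ (C' * n) * ((2 : ℝ) ^ (-(C * n)) * Y) :=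
    mul_le_mul_of_nonneg_right hM (by positivity)
  refine h3.trans ?_
  rw [← mul_assoc, ← Real.rpow_add (by norm_num), hde]
  apply mul_le_mul_of_nonneg_right _ (Nat.cast_nonneg Y)
  apply Real.rpow_le_rpow_of_exponent_le (by norm_num)
  have := mul_le_mul_of_nonneg_right (min_le_right γ (C - C')) hnR
  nlinarith

end Pool.Agent.H55.QR
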