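import Pool.Agent.H55.QR.Targets
import Pool.Agent.H78.KX.PAD

/-! # PADP: padding of the clauses (helper55, after helper78) -/

set_option autoImplicit false

namespace Pool.Agent.H55.QR

open Matrix Finset
open Pool.Agent.H1.LP (Clause viol)
open Pool.Agent.H78.KX (pad viol_pad ext_card ext_card')

theorem pf_PADP : S_PADP := by
  classical
  intro w k ε c C c' C' hwk hcc hCC hH
  obtain ⟨r, rfl⟩ := Nat.exists_eq_add_of_le hwk
  obtain ⟨K, γ, hγ, n₀, hn₀⟩ := hH
  have hd : 0 < c - c' := sub_pos.2 hcc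
  have hD : 0 < C - C' := sub_pos.2 hCC
  obtain ⟨N1, hN1⟩ := exists_nat_ge (c' * r / (c - c'))
  obtain ⟨N2, hN2⟩ := exists_nat_ge (C' * r / (C - C'))
  refine ⟨K * 2 ^ r, γ / 2, by positivity, n₀ + r + r + N1 + N2, ?_⟩
  intro n hn
  obtain ⟨n1, rfl⟩ : ∃ n1, n = n1 + r := ⟨n - r, by omega⟩
  obtain ⟨Y, m, phi, hY, hphi, hmain⟩ := hn₀ n1 (by omega)
  have hcast : ((n1 + r : ℕ) : ℝ) = n1 + r := by push_cast; ring
  have hA : c' * ((n1 + r : ℕ) : ℝ) ≤ c * n1 := by
    have h1 : (N1 : ℝ) ≤ n1 := by exact_mod_cast (by omega : N1 ≤ n1)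
    have h2 : c' * r ≤ n1 * (c - c') := (div_le_iff₀ hd).1 (hN1.trans h1)
    rw [hcast]
    nlinarith
  have hB : C' * ((n1 + r : ℕ) : ℝ) ≤ C * n1 := by
    have h1 : (N2 : ℝ) ≤ n1 := by exact_mod_cast (by omega : N2 ≤ n1)
    have h2 : C' * r ≤ n1 * (C - C') := (div_le_iff₀ hD).1 (hN2.trans h1)
    rw [hcast]
    nlinarith
  have hG : (2 : ℝ) ^ (-(γ * n1)) ≤ (2 : ℝ) ^ (-(γ / 2 * ((n1 + r : ℕ) : ℝ))) := by
    apply Real.rpow_le_rpow_of_exponent_le (by norm_num)
    have h1 : (r : ℝ) ≤ n1 := by exact_mod_cast (by omega : r ≤ n1)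
    rw [hcast]
    nlinarith
  refine ⟨Y, fun a => m a * 2 ^ r, fun a => pad r (phi a), hY, ?_, ?_⟩
  · intro a
    obtain ⟨h1, h2, h3, h4⟩ := hphi a
    refine ⟨Nat.mul_pos h1 (by positivity), ?_, ?_, ?_⟩
    · calc m a * 2 ^ r ≤ K * n1 * 2 ^ r := Nat.mul_le_mul_right _ h2
        _ = K * 2 ^ r * n1 := by ring
        _ ≤ K * 2 ^ r * (n1 + r) := Nat.mul_le_mul_left _ (by omega)
    · intro i
      unfold pad
      exact ⟨by rw [ext_card, (h3 _).1], by rw [ext_card', (h3 _).2]⟩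
    · intro x
      rw [viol_pad]
      refine le_trans (le_of_eq ?_) (h4 _)
      have h5 : (((m a * 2 ^ r : ℕ) : ℝ)) = m a * 2 ^ r := by push_cast; ring
      rw [h5, pow_add]
      field_simp
  · intro ι _ _ L S A de hcard hde hL hS hLS
    have h1 := hmain ι L (fun x => S (Fin.append x (fun _ => false))) A de
      (hcard.trans (Real.rpow_le_rpow_of_exponent_le (by norm_num) hA)) (hG.trans hde) hL
      (fun x => hS _) (fun a ha x => by
        rw [hLS a ha, viol_pad]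
        congr 3
        funext i
        exact Fin.append_left x (fun _ => false) i)
    refine h1.trans (mul_le_mul_of_nonneg_right ?_ (Nat.cast_nonneg Y))
    apply Real.rpow_le_rpow_of_exponent_le (by norm_num)
    linarith

end Pool.Agent.H55.QR
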