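import Pool.Agent.H1.LP.Asm
import Pool.Agent.H96.KX.BASEL
import Pool.Agent.H58.KX.FRM
import Pool.Agent.H58.KX.NPR
import Pool.Agent.H39.KX.PDA
import Pool.Agent.H78.KXX.LAV
import Pool.Agent.H11.KX.X3
import Pool.Agent.H77.KX.EXP3
import Pool.Agent.H49.KX3.RHS3
import Pool.Agent.H39.KX.FRM3
import Pool.Agent.H76.PS.PSL
import Pool.Agent.H63.PSD.LSH
import Pool.Agent.H11.PSD.TRP
import Pool.Agent.H37.PS.SPC
import Pool.Agent.H77.PS.UNI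
import Pool.Agent.H77.PS.SQR
import Pool.Agent.H32.PS.DTM
import Pool.Agent.H40.PS.DTD
import Pool.Agent.H55.PS.NRM
import Pool.Agent.H55.QR.RED
import Pool.Agent.H55.QR.PADP
import Pool.Agent.H86.QR.DPR
import Pool.Agent.H86.QR.EXPA
import Pool.Agent.H68.QR.EXP3
import Pool.Agent.H51.QR.PSL3
import Pool.Agent.H26.QR.PCORE
import Pool.Agent.H33.QR.PCORE3
import Pool.Agent.H64.QR.FINP
import Pool.Agent.H99.QR.FINP3
import Pool.Agent.H49.QR.LIMP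

/-! # Quantum relaxations of k-SAT: assembly (MP_0f8dca_lc, helper55) -/

set_option autoImplicit false

namespace Pool.Agent.H55.QR

open H43.PS

theorem psl' (hSDP : T_SDP) : T_PSL :=
  H76.PS.PSL hSDP (NRM DTM DTD SQR) (H11.PSD.TRP (SPC UNI)) H63.PSD.LSH

theorem psl3' (hSDP : T_SDP) : S_PSL3 :=
  H51.QR.pf_PSL3 hSDP (NRM DTM DTD SQR) (H11.PSD.TRP (SPC UNI))

theorem dpr' : S_DPR := H86.QR.pf_DPR H39.KX.pf_PDA H78.KXX.pf_LAV

theorem finp' (hSDP : T_SDP) : S_FINP :=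
  H64.QR.pf_FINP (H26.QR.pf_PCORE H96.KX.basel H2.LP.loc H88.LP.enc H58.KX.pf_NPR H58.KX.pf_FRM
    dpr') (H86.QR.pf_EXPA (psl' hSDP))

theorem finp3' (hSDP : T_SDP) : S_FINP3 :=
  H99.QR.pf_FINP3 (H33.QR.pf_PCORE3 H2.LP.loc H39.KX.pf_FRM3 dpr')
    (H68.QR.pf_EXP3 (psl3' hSDP)) (H11.KX.pf_X3 H77.KX.pf_EXP3 H49.KX3.pf_RHS3)

theorem quantum_of (hSDP : T_SDP) : StatementQ :=
  H49.QR.pf_LIMP pf_PADP pf_RED (finp' hSDP) (finp3' hSDP)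

end Pool.Agent.H55.QR
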