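import Pool.Agent.H55.QR.Asm
import Pool.Agent.H43.PS.Skel
import Pool.Agent.H55.PS.AMG
import Pool.Agent.H43.PS.BRP
import Pool.Agent.H41.PS.CCS
import Pool.Agent.H86.PS.CLW
import Pool.Agent.H98.PSD.CVX
import Pool.Agent.H60.PS.DEC
import Pool.Agent.H40.PS.DTD
import Pool.Agent.H32.PS.DTM
import Pool.Agent.H78.PS.GRM
import Pool.Agent.H43.PS.INT
import Pool.Agent.H43.PS.KLE
import Pool.Agent.H24.PS.NNG
import Pool.Agent.H55.PS.NRM
import Pool.Agent.H78.PS.PM
import Pool.Agent.H99.PS.POW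
import Pool.Agent.H98.PSD.RAB
import Pool.Agent.H66.PS.RAU
import Pool.Agent.H2.PS.RES
import Pool.Agent.H37.PS.RIX
import Pool.Agent.H24.PS.SCL
import Pool.Agent.H54.PS.SDP
import Pool.Agent.H37.PS.SPC
import Pool.Agent.H99.PS.SPL
import Pool.Agent.H77.PS.SQR
import Pool.Agent.H2.PS.STI
import Pool.Agent.H38.PS.STP
import Pool.Agent.H11.PSD.TRP
import Pool.Agent.H77.PS.UNI
import Pool.Agent.H86.PS.VEC
import Pool.Agent.H32.PS.VLM

/-! # The psd core, closed; and the quantum theorem (helper55) -/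

set_option autoImplicit false

namespace Pool.Agent.H55.QR

open H43.PS

/-- the trace inequality, closed -/
theorem brp : T_BRP :=
  BRP (KLE UNI (SPC UNI) AMG) (POW (SPC UNI)
    (Pool.Agent.H66.PS.RAU UNI (SPC UNI)
      (H98.PSD.RAB (RES UNI (SPC UNI)) (PM UNI (SPC UNI)))) INT)

theorem cvx : T_CVX := H98.PSD.CVX SQR brp (SCL UNI (SPC UNI)) (NNG (SPC UNI))

theorem spl : T_SPL := SPL SQR brp cvx (GRM UNI (SPC UNI)) (SCL UNI (SPC UNI))

/-- the decoupling inequality, closed -/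
theorem dec : T_DEC := DEC (STP (STI spl cvx (NNG (SPC UNI))) (NNG (SPC UNI))) (RIX UNI (SPC UNI))

/-- the psd core, closed -/
theorem sdp : T_SDP :=
  H54.PS.SDP dec (VEC SQR) (VLM CLW CCS) (H11.PSD.TRP (SPC UNI)) (NNG (SPC UNI))

/-- the quantum theorem -/
theorem quantum : StatementQ := quantum_of sdp

end Pool.Agent.H55.QR
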