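import Pool.Agent.H1.LP.Stmt

/-!
# Quantum relaxations of k-SAT: the statement (MP_0f8dca_lc, helper55)
-/

set_option autoImplicit false

namespace Pool.Agent.H55.QR

open Pool.Agent.H1.LP (Clause viol)
open Filter Topology
open scoped ComplexOrder

/-- An encoding of the assignments of `n` Boolean variables by states of `q` qubits: a density
matrix of order `2 ^ q` (positive semidefinite, complex entries, trace one) for each assignment. -/
structure Encoding (n q : ℕ) where
  /-- the state which encodes an assignment -/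
  st : (Fin n → Bool) → Matrix (Fin (2 ^ q)) (Fin (2 ^ q)) ℂ
  psd : ∀ x, (st x).PosSemidef
  tr : ∀ x, (st x).trace = 1

/-- The encoding certifies the formula `phi` with margin `de`: there is a Hamiltonian on the `q`
qubits (any Hermitian matrix `H`) whose expectation in the state of each assignment `x` is the
number of clauses violated by `x`, and whose ground state energy is at least `de`
(`H - de` is positive semidefinite). -/
def Encoding.Certifies {n q m : ℕ} (E : Encoding n q) (phi : Fin m → Clause n) (de : ℝ) : Prop :=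
  ∃ H : Matrix (Fin (2 ^ q)) (Fin (2 ^ q)) ℂ, (∀ x, (H * E.st x).trace = viol phi x) ∧
    (H - (de : ℂ) • (1 : Matrix (Fin (2 ^ q)) (Fin (2 ^ q)) ℂ)).PosSemidef

open Classical in
/-- Encodings on `c n` qubits, chosen after the formula among `2 ^ (C n)` encodings, do not
distinguish `k`-CNFs with `O(n)` clauses and with the gap `(1 - ε) / 2 ^ k` from satisfiable ones.
There are `K` and `γ > 0` such that for all large `n` there is a finite list of CNFs with `n`
variables, at most `K n` clauses, all of width exactly `k`, every assignment violating at least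
`(1 - ε) m / 2 ^ k` of the `m` clauses, with the property: for every family of at most
`2 ^ (C n)` encodings, each on at most `c n` qubits, at most a fraction `2 ^ (- γ n)` of the
formulas of the list is certified with margin `2 ^ (- γ n)` by some encoding of the family. -/
def HardQ (k : ℕ) (ε c C : ℝ) : Prop :=
  ∃ (K : ℕ) (γ : ℝ), 0 < γ ∧ ∃ n₀ : ℕ, ∀ n : ℕ, n₀ ≤ n →
    ∃ (Y : ℕ) (m : Fin Y → ℕ) (phi : (a : Fin Y) → Fin (m a) → Clause n), 0 < Y ∧
      (∀ a, 1 ≤ m a ∧ m a ≤ K * n ∧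
        (∀ i, (phi a i).card = k ∧ ((phi a i).image Prod.fst).card = k) ∧
        ∀ x, (1 - ε) * ((m a : ℝ) / 2 ^ k) ≤ (viol (phi a) x : ℝ)) ∧
      ∀ (M : ℕ) (q : Fin M → ℕ) (E : (j : Fin M) → Encoding n (q j)),
        (M : ℝ) ≤ (2 : ℝ) ^ (C * n) → (∀ j, (q j : ℝ) ≤ c * n) →
        ((Finset.univ.filter
          (fun a => ∃ j, (E j).Certifies (phi a) ((2 : ℝ) ^ (-(γ * n))))).card : ℝ) ≤
          (2 : ℝ) ^ (-(γ * n)) * Y

/-- Quantum relaxations: for every gap `ε > 0` there are exponents `c k` and `C k`, positive for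
all `k ≥ 3`, `c k` tending to `1 / 2` and `C k` to infinity. -/
def StatementQ : Prop :=
  ∀ ε : ℝ, 0 < ε → ∃ c C : ℕ → ℝ, (∀ k, 3 ≤ k → 0 < c k ∧ 0 < C k) ∧
    Tendsto c atTop (𝓝 (1 / 2)) ∧ Tendsto C atTop atTop ∧ ∀ k, 3 ≤ k → HardQ k ε (c k) (C k)

/-- the same for exact positive semidefinite factorisations over the reals -/
def HardP (k : ℕ) (ε c C : ℝ) : Prop :=
  ∃ (K : ℕ) (γ : ℝ), 0 < γ ∧ ∃ n₀ : ℕ, ∀ n : ℕ, n₀ ≤ n →
    ∃ (Y : ℕ) (m : Fin Y → ℕ) (phi : (a : Fin Y) → Fin (m a) → Clause n), 0 < Y ∧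
      (∀ a, 1 ≤ m a ∧ m a ≤ K * n ∧
        (∀ i, (phi a i).card = k ∧ ((phi a i).image Prod.fst).card = k) ∧
        ∀ x, (1 - ε) * ((m a : ℝ) / 2 ^ k) ≤ (viol (phi a) x : ℝ)) ∧
      ∀ (ι : Type) [Fintype ι] [DecidableEq ι] (L : Fin Y → Matrix ι ι ℝ)
        (S : (Fin n → Bool) → Matrix ι ι ℝ) (A : Finset (Fin Y)) (de : ℝ),
        (Fintype.card ι : ℝ) ≤ (2 : ℝ) ^ (c * n) → (2 : ℝ) ^ (-(γ * n)) ≤ de →
        (∀ a ∈ A, (L a).PosSemidef) → (∀ x, (S x).PosSemidef) →
        (∀ a ∈ A, ∀ x, (L a * S x).trace = viol (phi a) x - de) →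
        (A.card : ℝ) ≤ (2 : ℝ) ^ (-(C * n)) * Y

end Pool.Agent.H55.QR
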