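import Pool.Agent.H43.PS.Targets2
import Pool.Agent.H96.KX.Targets2
import Pool.Agent.H73.OX.Targets
import Pool.Agent.H55.QR.Stmt

/-!
# Quantum relaxations of k-SAT: targets of the board `qr_modules` (MP_0f8dca_lc, helper55)
-/

set_option autoImplicit false

namespace Pool.Agent.H55.QR

open Matrix Finset
open H43.PS
open Pool.Agent.H1.LP (Clause viol Loc Sys supp ip kk)
open Pool.Agent.H96.KX (PDz S_BASEL S_X3 S_PDA S_NPR S_FRM S_FRM3)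

/-- The psd bound, tables on the side of the formulas: order at most `r` and margin at least `δ₀`
give a share at most `s`. -/
def PSB (Θ : Type) [Fintype Θ] [DecidableEq Θ] [AddCommGroup Θ] (N q h : ℕ) (r δ₀ s : ℝ) : Prop :=
  ∀ (ι : Type) [Fintype ι] [DecidableEq ι] (A : Finset (Fin N → Fin q → Θ))
    (P : (Fin N → Fin q → Θ) → Matrix ι ι ℝ) (S : (Fin N → Θ) → (Fin N → Fin q) → Matrix ι ι ℝ)
    (D v : (Fin N → Θ) → ℝ) (m δ : ℝ),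
    (∀ t ∈ A, (P t).PosSemidef) → (∀ g ω, (S g ω).PosSemidef) →
    (∀ z, |D z| ≤ (Fintype.card Θ : ℝ) ^ N) → PosDeg h D → av D = 1 →
    av (fun z => D z * v z) = 0 → (∀ z, 0 ≤ v z) → (∀ z, v z ≤ m) → 0 < m → m ≤ 2 ^ N →
    0 < δ → δ₀ ≤ δ → (Fintype.card ι : ℝ) ≤ r →
    (∀ t ∈ A, ∀ g ω, v (fun i => g i + t i (ω i)) - δ = (P t * S g ω).trace) →
    share A ≤ s

/-- The psd bound, indices on the side of the formulas. -/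
def PSB3 (Θ : Type) [Fintype Θ] [DecidableEq Θ] (N q h : ℕ) (r δ₀ s : ℝ) : Prop :=
  ∀ (ι : Type) [Fintype ι] [DecidableEq ι] (A : Finset (Fin N → Fin q))
    (L : (Fin N → Fin q) → Matrix ι ι ℝ) (S : (Fin N → Fin q → Θ) → Matrix ι ι ℝ)
    (D v : (Fin N → Θ) → ℝ) (m δ : ℝ),
    (∀ b ∈ A, (L b).PosSemidef) → (∀ t, (S t).PosSemidef) →
    (∀ z, |D z| ≤ (Fintype.card Θ : ℝ) ^ N) → PosDeg h D → av D = 1 →
    av (fun z => D z * v z) = 0 → (∀ z, 0 ≤ v z) → (∀ z, v z ≤ m) → 0 < m → m ≤ 2 ^ N →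
    0 < δ → δ₀ ≤ δ → (Fintype.card ι : ℝ) ≤ r →
    (∀ b ∈ A, ∀ t, v (fun i => t i (b i)) - δ = (L b * S t).trace) →
    (A.card : ℝ) / (q : ℝ) ^ N ≤ s

/-- PSL3: the psd lemma with the roles exchanged; `T_SDP → T_NRM → T_TRP → S_PSL3` -/
def S_PSL3 : Prop := ∀ (Θ : Type) [Fintype Θ] [DecidableEq Θ] (p σ : ℝ), 1 < p → p < 3 / 2 →
  1 ≤ σ → 0 < Fintype.card Θ → ∀ (N q h : ℕ), 0 < q → ∀ (ι : Type) [Fintype ι] [DecidableEq ι]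
  (A : Finset (Fin N → Fin q)) (L : (Fin N → Fin q) → Matrix ι ι ℝ)
  (S : (Fin N → Fin q → Θ) → Matrix ι ι ℝ) (D v : (Fin N → Θ) → ℝ) (M m δ : ℝ),
  (∀ b ∈ A, (L b).PosSemidef) → (∀ t, (S t).PosSemidef) → (∀ z, |D z| ≤ M) → PosDeg h D →
  av D = 1 → av (fun z => D z * v z) = 0 → (∀ z, 0 ≤ v z) → (∀ z, v z ≤ m) → 0 < m → 0 < δ →
  (∀ b ∈ A, ∀ t, v (fun i => t i (b i)) - δ = (L b * S t).trace) →
  δ ^ 2 * ((A.card : ℝ) / (q : ℝ) ^ N) ≤ 16 * M ^ 2 * m *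
    XX (Fintype.card Θ) q p σ (Fintype.card ι) (2 * m) ((Fintype.card ι : ℝ) ^ p) N h

/-- EXPA: `T_PSL → S_EXPA`, exponent `1/2`, adaptive -/
def S_EXPA : Prop := ∀ (Θ : Type) [Fintype Θ] [DecidableEq Θ] [AddCommGroup Θ] (e C : ℝ),
  0 < e → e < 1 / 2 → 0 ≤ C → 1 < Fintype.card Θ → ∃ q₀ : ℕ, ∀ q : ℕ, q₀ ≤ q → ∀ (N h : ℕ),
  (1 - e / 2) * N ≤ 2 * (h + 1) →
  PSB Θ N q h ((((Fintype.card Θ : ℝ) * q) ^ N) ^ (1 / 2 - e)) (((2 : ℝ) ^ N)⁻¹)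
    ((((Fintype.card Θ : ℝ) * q) ^ N) ^ (-C))

/-- EXP3: `S_PSL3 → S_EXP3` -/
def S_EXP3 : Prop := ∀ κ : ℝ, 0 < κ → ∃ q : ℕ, 1 ≤ q ∧ ∀ (N h : ℕ), κ * N ≤ h + 1 →
  PSB3 (ZMod 2) N q h ((2 : ℝ) ^ N) (((2 : ℝ) ^ N)⁻¹) (((2 : ℝ) ^ N)⁻¹)

/-- DPR: properties of the pseudo-density; `S_PDA → S_LAV → S_DPR` (uses `H73.OX.las`) -/
def S_DPR : Prop := ∀ (p B d h : ℕ) [Fact p.Prime] (S : Loc p B d), 2 * h ≤ d →
  (∀ z, |PDz S z| ≤ (Fintype.card (ZMod p) : ℝ) ^ B) ∧ PosDeg h (PDz S) ∧ av (PDz S) = 1 ∧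
  ∀ (R : ℕ) (A : Fin R → Fin B → ZMod p) (be : Fin R → ZMod p),
    (∀ i, A i ∈ S.La ∧ S.ga (A i) = be i) →
    av (fun z => PDz S z * ((univ.filter (fun i => ip (A i) z ≠ be i)).card : ℝ)) = 0

/-- PCORE: the list of formulas of the tables -/
def S_PCORE : Prop := ∀ (E l n B : ℕ), 16 ≤ E → 2 * kk E ≤ B → B * (4 * E + 1 + l) ≤ n →
  4 * E * B ≤ 2 ^ B → ∀ (r δ₀ s : ℝ),
  (∀ Q : ℕ, ∀ _ : Fact Q.Prime, 2 ^ (4 * E) < Q → Q ≤ 2 ^ (4 * E + 1) →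
    PSB (ZMod Q) B (2 ^ l) ((B - 8 * (B / E)) / 2) r δ₀ s) →
  ∃ (Y : ℕ) (m : Fin Y → ℕ) (phi : (a : Fin Y) → Fin (m a) → Clause n), 0 < Y ∧
    (∀ a, 1 ≤ m a ∧ m a ≤ 4 * E * B * 2 ^ ((4 * E + 1 + l) * kk E) ∧
      (∀ i, (phi a i).card = (4 * E + 1 + l) * kk E ∧
        ((phi a i).image Prod.fst).card = (4 * E + 1 + l) * kk E) ∧
      ∀ x, (1 - 1 / (E : ℝ)) * ((m a : ℝ) / 2 ^ ((4 * E + 1 + l) * kk E)) ≤
        (viol (phi a) x : ℝ)) ∧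
    ∀ (ι : Type) [Fintype ι] [DecidableEq ι] (L : Fin Y → Matrix ι ι ℝ)
      (S : (Fin n → Bool) → Matrix ι ι ℝ) (A : Finset (Fin Y)) (de : ℝ),
      (Fintype.card ι : ℝ) ≤ r → 0 < de → δ₀ ≤ de →
      (∀ a ∈ A, (L a).PosSemidef) → (∀ x, (S x).PosSemidef) →
      (∀ a ∈ A, ∀ x, (L a * S x).trace = viol (phi a) x - de) → (A.card : ℝ) ≤ s * Y

/-- PCORE3: the list of the 3-CNFs of the index vectors -/
def S_PCORE3 : Prop :=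
  ∀ (B R t q n : ℕ) (ε : ℝ) (T : Fin R → Finset (Fin B)) (Ys : Sys 2 B R t (t / 3)),
  1 ≤ R → 9 ≤ t → 1 ≤ q → B * q ≤ n → R ≤ 2 ^ B → (∀ i, (T i).card = 3) →
  (∀ i j, Ys.A i j = if j ∈ T i then 1 else 0) →
  (∀ z : Fin B → ZMod 2, (1 - ε) * ((R : ℝ) / 2) ≤
    ((univ.filter (fun i => ip (Ys.A i) z ≠ Ys.be i)).card : ℝ)) → ∀ (r δ₀ s : ℝ),
  PSB3 (ZMod 2) B q (t / 3 / 2) r δ₀ s →
  ∃ (Y : ℕ) (m : Fin Y → ℕ) (phi : (a : Fin Y) → Fin (m a) → Clause n), 0 < Y ∧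
    (∀ a, 1 ≤ m a ∧ m a ≤ 4 * R ∧
      (∀ i, (phi a i).card = 3 ∧ ((phi a i).image Prod.fst).card = 3) ∧
      ∀ x, (1 - ε) * ((m a : ℝ) / 2 ^ 3) ≤ (viol (phi a) x : ℝ)) ∧
    ∀ (ι : Type) [Fintype ι] [DecidableEq ι] (L : Fin Y → Matrix ι ι ℝ)
      (S : (Fin n → Bool) → Matrix ι ι ℝ) (A : Finset (Fin Y)) (de : ℝ),
      (Fintype.card ι : ℝ) ≤ r → 0 < de → δ₀ ≤ de →
      (∀ a ∈ A, (L a).PosSemidef) → (∀ x, (S x).PosSemidef) →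
      (∀ a ∈ A, ∀ x, (L a * S x).trace = viol (phi a) x - de) → (A.card : ℝ) ≤ s * Y

/-- the wide case; FINP: `S_PCORE → S_EXPA → S_FINP` -/
def S_FINP : Prop := ∀ C ε : ℝ, 0 < ε → ∃ k : ℕ, HardP k ε (1 / 2 - ε) C

/-- width 3; FINP3: `S_PCORE3 → S_EXP3 → S_X3 → S_FINP3` -/
def S_FINP3 : Prop := ∀ ε : ℝ, 0 < ε → ∃ c C : ℝ, 0 < c ∧ 0 < C ∧ HardP 3 ε c C

/-- PADP: padding -/
def S_PADP : Prop := ∀ (w k : ℕ) (ε c C c' C' : ℝ), w ≤ k → c' < c → C' < C →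
  HardP w ε c C → HardP k ε c' C'

/-- RED: from real psd factorisations to encodings by states -/
def S_RED : Prop := ∀ (k : ℕ) (ε c C c' C' : ℝ), c' < c → C' < C → HardP k ε c C →
  HardQ k ε c' C'

/-- LIMP -/
def S_LIMP : Prop := S_FINP → S_FINP3 → StatementQ

end Pool.Agent.H55.QR
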